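import Pool.Agent.R217.FS.Final

set_option autoImplicit false

open Filter Topology
open Pool.Agent.R217.FS

namespace Pool.Agent.Results.MP_51d96b_an.NotC1

/-- For every `s` in `[1/2, 1)` and all `L, P > 0`, the derivative of the self-similar profile of
the one-phase fractional Stefan problem has no finite limit at the free boundary point from the
water side. -/
theorem result (s L P ξ0 : ℝ) (hs : 1 / 2 ≤ s) (h1 : s < 1) (_hL : 0 < L) (_hP : 0 < P)
    (H : ℝ → ℝ) (h : Profile s L P ξ0 H) :
    ¬ ∃ m : ℝ, Tendsto (deriv H) (𝓝[<] ξ0) (𝓝 m) :=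
  not_C1 h hs h1

end Pool.Agent.Results.MP_51d96b_an.NotC1
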